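import Pool.Agent.KS6_76.RT.Fin

/-!
# The ratios formula for the characters of conductor `8|d|`: failure for every weight

Under GRH, for every even nonnegative nonzero Schwartz weight the uniform ratios formula fails,
and on the line `Re α = -a` no error term `O(X^(-η))` with `η > 1/2 - 2a` is possible.

The formula is compared at the scales `x₀ X` and `lam x₀ X`, where `lam` is large, so that the
coefficients of the difference are bounded below on a window of `d` in which the given weight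
is bounded below.  With `α = -β`, `Re β = a`, the functional equation and Stirling's formula
turn the formula into a bound for a sum over `d` of
`|d|^β (W_d L(1/2 + β) / L(1/2 + γ) - Φ(β, γ))`.  It is integrated against a Gaussian in `Im β`
around `X / r^2` of width `X / r^4`, times a Dirichlet polynomial over the window, and against
a Gaussian in `Im γ` which picks the coefficient of a prime `p`, where `X = r^(m + 4)`.  The
terms with `|d|` close to `n |e|`, `n ≤ 2 r`, remain; those with `|d| = n |e|`, `n ≥ 2`,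
vanish because `χ_{8d}(n) = 0`, those with `|d| ≠ n |e|` cancel in the mean over `p`, and the
diagonal `d = e` is too large for the formula.
-/

set_option autoImplicit false

namespace Pool.Agent.Results.MP_d2a082_nt.EveryWeight

open Complex Pool.Agent.H491R3 Pool.Agent.KS6_76.RT

theorem schwartz_SW (w : SchwartzMap ℝ ℝ) (h0 : ∀ x, 0 ≤ w x) : SW w := by
  refine ⟨h0, fun k => ?_⟩
  obtain ⟨C, hC⟩ := w.decay k 0
  obtain ⟨hC0, hC⟩ := hC
  refine ⟨C, hC0, fun x => ?_⟩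
  have h := hC x
  rw [norm_iteratedFDeriv_zero, Real.norm_eq_abs, Real.norm_eq_abs, abs_of_nonneg (h0 x)] at h
  exact h

theorem schwartz_window (w : SchwartzMap ℝ ℝ) (he : ∀ x, w (-x) = w x) (h0 : ∀ x, 0 ≤ w x)
    (hne : w ≠ 0) : ∃ s t c : ℝ, 0 < s ∧ s < t ∧ 0 < c ∧ ∀ x, s ≤ x → x ≤ t → c ≤ w x := by
  obtain ⟨x₁, hx₁⟩ : ∃ x, w x ≠ 0 := by
    by_contra h
    push Not at h
    apply hne
    ext x
    rw [h x]
    rfl
  have hpos : 0 < w |x₁| := by
    have h1 : w |x₁| = w x₁ := by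
      rcases abs_choice x₁ with h | h
      · rw [h]
      · rw [h, he]
    rw [h1]
    exact lt_of_le_of_ne (h0 _) (Ne.symm hx₁)
  have hcont : ContinuousAt w |x₁| := w.continuous.continuousAt
  have hev : ∀ᶠ y in nhds |x₁|, w |x₁| / 2 < w y :=
    hcont.eventually (lt_mem_nhds (by linarith))
  rw [Metric.eventually_nhds_iff] at hev
  obtain ⟨δ, hδ, hball⟩ := hev
  have hx0 : 0 ≤ |x₁| := abs_nonneg _
  refine ⟨|x₁| + δ / 4, |x₁| + δ / 2, w |x₁| / 2, by linarith, by linarith, by linarith, ?_⟩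
  intro x hx1 hx2
  apply le_of_lt
  apply hball
  rw [Real.dist_eq, abs_lt]
  constructor <;> linarith

/-- Under GRH, for every even nonnegative nonzero Schwartz function `w`:

* for every `0 < ε ≤ 1/100` and all `c₀, C₀ > 0` the ratios formula with error
  `O(X^(-1/2 + ε))` does not hold uniformly on the region `-1/4 < Re α < 1/4`,
  `c₀ / log X ≤ Re γ < 1/4`, `|Im α|, |Im γ| ≤ C₀ X^(1 - ε)`;
* for every `0 < a < 1/4`, every `0 < ε ≤ 1/100` and every `η ≥ 1/2 - 2 a + 17 ε` the formula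
  with error `O(X^(-η))` already fails on the lines `Re α = -a`, `Re γ = 1/10` with
  `|Im α|, |Im γ| ≤ C₀ X^(1 - ε)`. -/
theorem result : GRH → ∀ w : SchwartzMap ℝ ℝ, (∀ x, w (-x) = w x) → (∀ x, 0 ≤ w x) → w ≠ 0 →
    (∀ ε c₀ C₀ : ℝ, 0 < ε → ε ≤ 1 / 100 → 0 < c₀ → 0 < C₀ →
      ¬ ∃ K X₀ : ℝ, ∀ X : ℝ, X₀ ≤ X → ∀ α γ : ℂ, -(1 / 4) < α.re → α.re < 1 / 4 →
        c₀ / Real.log X ≤ γ.re → γ.re < 1 / 4 → |α.im| ≤ C₀ * X ^ (1 - ε) →
        |γ.im| ≤ C₀ * X ^ (1 - ε) →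
        ‖avg w X (fun d => L d (1 / 2 + α) / L d (1 / 2 + γ)) -
          (Phi α γ + avg w X (fun d => Xd d (1 / 2 + α)) * Phi (-α) γ)‖ ≤
            K * X ^ (-(1 / 2) + ε)) ∧
    (∀ a η ε c₀ C₀ : ℝ, 0 < a → a < 1 / 4 → 0 < ε → ε ≤ 1 / 100 →
      1 / 2 - 2 * a + 17 * ε ≤ η → 0 < c₀ → 0 < C₀ →
      ¬ ∃ K X₀ : ℝ, ∀ X : ℝ, X₀ ≤ X → ∀ α γ : ℂ, α.re = -a → γ.re = 1 / 10 →
        c₀ / Real.log X ≤ γ.re → |α.im| ≤ C₀ * X ^ (1 - ε) →
        |γ.im| ≤ C₀ * X ^ (1 - ε) →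
        ‖avg w X (fun d => L d (1 / 2 + α) / L d (1 / 2 + γ)) -
          (Phi α γ + avg w X (fun d => Xd d (1 / 2 + α)) * Phi (-α) γ)‖ ≤
            K * X ^ (-η)) := by
  intro hG w he h0 hne
  have hw := schwartz_SW w h0
  obtain ⟨s, t, c, hs, hst, hc, hwc⟩ := schwartz_window w he h0 hne
  have key : ∀ a η ε c₀ C₀ : ℝ, 0 < a → a < 1 / 4 → 0 < ε → ε ≤ 1 / 100 →
      1 / 2 - 2 * a + 17 * ε ≤ η → 0 < c₀ → 0 < C₀ →
      ¬ ∃ K X₀ : ℝ, ∀ X : ℝ, X₀ ≤ X → ∀ α γ : ℂ, α.re = -a → γ.re = 1 / 10 →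
        c₀ / Real.log X ≤ γ.re → |α.im| ≤ C₀ * X ^ (1 - ε) →
        |γ.im| ≤ C₀ * X ^ (1 - ε) →
        ‖avg w X (fun d => L d (1 / 2 + α) / L d (1 / 2 + γ)) -
          (Phi α γ + avg w X (fun d => Xd d (1 / 2 + α)) * Phi (-α) γ)‖ ≤
            K * X ^ (-η) := by
    intro a η ε c₀ C₀ ha0 ha1 hε hε1 hη _ hC₀ h
    have hUR : UR w a η ε c₀ C₀ := h
    exact UR_false hG hw hs hst hc hwc ha0 (by linarith) hε hε1 (by linarith) (by linarith)
      hC₀ hUR
  refine ⟨?_, key⟩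
  intro ε c₀ C₀ hε hε1 hc₀ hC₀ h
  obtain ⟨K, X₀, hK⟩ := h
  apply key (1 / 5) (1 / 2 - ε) ε c₀ C₀ (by norm_num) (by norm_num) hε hε1 (by linarith) hc₀ hC₀
  refine ⟨K, X₀, fun X hX α γ hα hγ hγ' hα' hγ'' => ?_⟩
  have h1 := hK X hX α γ (by rw [hα]; norm_num) (by rw [hα]; norm_num) hγ'
    (by rw [hγ]; norm_num) hα' hγ''
  have h2 : -(1 / 2 - ε) = -(1 / 2) + ε := by ring
  rw [h2]
  exact h1

end Pool.Agent.Results.MP_d2a082_nt.EveryWeight
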